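import Pool.Agent.Helper17.NC.Step
import Pool.Agent.Helper17.BP.K3Sys

/-!
# The noncommutative standard conjecture D and products with K3 surfaces of different heights

Let `κ` be a finite field with `q = p ^ m` elements, and `𝒱` a class of smooth projective varieties over
`κ`, closed under products, with Chow groups `A` with rational coefficients and a Weil cohomology theory
`H` (framework of the starting files: `TheoryData`, `IsChow`, `IsWeil`), for instance the crystalline
cohomology. Let `X_i`, `1 ≤ i ≤ r`, be K3 surfaces over `κ` of finite heights `h_i`, with `22 - b_i` the
geometric Picard number, all divisors being defined over `κ` (true after a finite extension of `κ`).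
More generally (`HasK3Type`) `X_i` is a variety whose cohomology is generated by the classes of algebraic
cycles and a subspace `T` stable under the Frobenius, where the eigenvalues of the Frobenius are, up to
roots of unity and after an extension of `κ` of degree `e_i`, of the form `q ^ w` times a product of at
most `n_i` conjugates of the number `α_i`, not balanced (some conjugate and its inverse do not occur
equally often). Here `α_i` is the Frobenius number of a K3 surface of height `h_i` (`IsK3Number`: all
powers of `α_i` generate the CM field `E_i`, the complex absolute values are `1`, the `p`-adic embeddings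
with `|α_i| > 1` belong to one place, and there `|α_i| = q ^ (1 / h_i)`; `h_i` and `b_i` are the same
multiple of the local degree and of the degree `2 d_i` of `E_i`). So `X_i` can be a K3 surface or a cubic
fourfold (`n_i = 1`), a power of a K3 surface or a Hilbert scheme of points of a K3 surface, if the Tate
conjecture is known for it (for instance `S × S`, `n_i = 2`, for all K3 surfaces `S` of finite height:
Ito, Ito and Koshikawa).

Let `Z` be **any** smooth projective variety in `𝒱`, and `Γ` a set of rational numbers which contains
`0`, such that for even `w` the eigenvalues of weight `w` of the Frobenius on `H(Z)` have slopes in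
`w / 2 + Γ`. Suppose (`Admissible`) that

* integers `a_i`, `|a_i| ≤ n_i`, such that `∑ a_i / h_i` belongs to `Γ` are zero, and that `n_i ≤ 2`, or
  `n_i = 3` and `(d_i, m_i) ∉ exceptionalPairs`, or `m_i` is odd and `(d_i, m_i) ∉ exceptionalOddPairs`,
  with the local degree `m_i`; or
* (`Γ = {0}`) this only for the `a_i` with index `i` in a set of indices (the `Isolated` ones), and for
  the other indices only that `n_i = 1`, that the `h_i` are different, and that there are not three such
  indices with `(h, b) = (2, 4), (3, 6), (6, 12)` (the bounds `h ≤ 11`, `b ≤ 23` hold for all K3
  surfaces).

Let `𝒜` be a smooth proper dg category whose noncommutative motive with rational coefficients is a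
direct summand of the one of `Z`, for instance the category of perfect complexes on `Z`, or a
component of a semi-orthogonal decomposition of it. It is given by an idempotent `e` in the ring
`K_0(Z × Z)_ℚ`, which is identified with `CH(Z × Z)_ℚ` (all degrees together) by the Chern character
multiplied by the square root of the Todd class (`IsIdempotent`). The noncommutative motive of the dg
category `perf(X_{i_1} × ⋯ × X_{i_s}) ⊗ 𝒜` is `(X_{i_1} × ⋯ × X_{i_s} × Z, 1 × e)` (`relativeOf`), and `TP(𝒜)` is
the direct summand of the crystalline cohomology of `Z` cut out by `e`. So the conjecture of type D for
it is `HomEqNum`: the elements of the kernel of the Euler pairing are homologically trivial.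

**Theorem** (`NCConclusions`).
1. For all finite sets of indices **the noncommutative standard conjecture of type D for
  `perf(X_{i_1} × ⋯ × X_{i_s}) ⊗ 𝒜` is equivalent to the one for `𝒜`**, for all `𝒜` as above.
2. (Künneth formula) For `V = X_i × V'`, `V' = X_{i_1} × ⋯ × X_{i_s} × Z`, there are finitely many cycles
  `D j` of codimension `deg j` on `X_i`, which do not depend on `𝒜`, such that `K_0(V, 1 × e)_ℚ` is the sum of
  the `D j × K_0(V', 1 × e)_ℚ` modulo homological equivalence, this sum is direct, and the same is true
  for the kernels of the Euler pairings.

Nothing is assumed about nilpotence or finite-dimensionality of motives. (`IsoInvariant`: isomorphisms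
have degree one.) In particular:
* (`Γ = {0}`) the conjecture is true for `perf(V) ⊗ 𝒜` for **all products `V` of K3 surfaces of pairwise
  different finite heights** (not `2, 3, 6` with Picard numbers `18, 16, 10`) and all `𝒜` coming from
  curves and surfaces `Z` with supersingular `H²`, or from abelian varieties `Z` with supersingular even
  cohomology;
* (`Γ` the integers) for a K3 surface `X` of height `h > 1` and **every** `𝒜` that comes from a variety `Z`
  with integral slopes in even degrees, for instance any ordinary `Z`, the conjecture for
  `perf(X) ⊗ 𝒜` is equivalent to the conjecture for `𝒜`.

The proof: by the results on slopes of the starting files (helper179) no product of eigenvalues of the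
Frobenius on the parts `T` of several `X_i` and on the cohomology of `Z` is a power of `q`. Cycles on
`X_i × V'` of mixed degrees decompose into eigenvectors of the Frobenius for powers of `q`, modulo
homological equivalence they come from cycles on `X_i`, and the projectors `1 × e` for the iterated
products are idempotents (`isIdempotent_relative`), so that the step for one factor (helper484) can be
repeated.
-/

set_option autoImplicit false

open Polynomial CategoryTheory AlgebraicGeometry NumberField

namespace Pool.Agent.Results.MP_28af06_ag.DifferentHeights

open Pool.Agent.H914 Pool.Agent.H914.VarClass Pool.Agent.H914.VarClass.Obj Pool.Agent.W492.BB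
  Pool.Agent.W484.CK Pool.Agent.N876.R816 Pool.Agent.Helper17.BP Pool.Agent.Helper17.NC

/-- **The noncommutative standard conjecture D and products with K3 surfaces of different heights.** -/
theorem result (p m : ℕ) [Fact p.Prime] (κ : Type) [Field κ] [Fintype κ] {r : ℕ}
    (E : Fin r → Type) [∀ i, Field (E i)] [∀ i, NumberField (E i)] [∀ i, IsCMField (E i)]
    (α : ∀ i, E i) (e h b n : Fin r → ℕ) (Γ : Set ℚ) (hD : IsK3Data κ p m α e h b n Γ)
    {𝒱 : VarClass κ} (A : TheoryData.{0, 0, 0} 𝒱 ℚ) [IsChow A] (hI : IsoInvariant A) {K : Type}
    [Field K] [IsAlgClosed K] [CharZero K] (H : WeilTheoryData.{0, 0, 0} A K) [IsWeil H]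
    (F : ∀ X : 𝒱.Obj, X ⟶ X) (X : Fin r → 𝒱.Obj) (Z : 𝒱.Obj)
    (hS : IsK3System p m α e n Γ H F X Z (Polynomial.X - 1)) : NCConclusions A H X Z :=
  nc_main hI (cr_k3 hD hS) (by simp) hS.frobenius hS.polarized

end Pool.Agent.Results.MP_28af06_ag.DifferentHeights
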