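import Pool.Agent.Helper17.NC.Step
import Pool.Agent.Helper17.BP.Cov

/-!
# The noncommutative standard conjecture D and products with cyclic coverings branched along hyperplanes

Let `κ` be a finite field with `q = c ^ f` elements, and `𝒱` a class of smooth projective varieties over
`κ`, closed under products, with Chow groups `A` with rational coefficients and a Weil cohomology theory
`H` (framework of the starting files: `TheoryData`, `IsChow`, `IsWeil`), for instance the crystalline
cohomology. Let `X_i` be varieties in `𝒱`, of any dimensions `n_i`, which are models of cyclic coverings

  `w ^ N_i = ∏ l_{i,k} (x) ^ a_{i,k}`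

of projective spaces, branched along hyperplanes `l_{i,k} = 0` over `κ`, with exponents prime to `N_i`,
where `N_i` divides `q - 1` (`IsModel`, see the definitions: the cohomology is generated by the
classes of cycles and a part `T`, pure of weight `n_i`, without invariants under the covering
group, for which the trace formula holds). Let `N` be a common multiple of the `N_i`, and `λ` an
integer such that `IsSmall N λ` holds: for every nonempty finite set `I` of indices and all `j_i` not
divisible by `N_i` (`i ∈ I`) there is a `u` prime to `N` with
`∑_{i ∈ I} weight X_i (u j_i) + λ / 2 < ∑_{i ∈ I} (n_i / 2 + 1)`; here `weight X j` is the mean over the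
orbit `j, c j, …, c ^ (f - 1) j` of the sum of the fractional parts of `j a_k / N_i`.

Let `Z` be **any** smooth projective variety in `𝒱`. We assume (`IsCoveringSystem` with `χ = x - 1`) that
the eigenvalues `b` of the Frobenius on `H(Z)` are of the form `|b| ^ 2 = q ^ j` (theorem of Deligne) and
that
* either `λ = 0` and the cyclotomic polynomial of order `N` is irreducible over the field generated by
  the numbers `b` (for given `Z` this is true for all `N` prime to the discriminant of this field),
* or `Z` is of level `≤ λ`: the numbers `q ^ λ b / b̄` are algebraic integers. This is true if
  `dim Z ≤ λ`.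

Let `𝒜` be a smooth proper dg category whose noncommutative motive with rational coefficients is a
direct summand of the one of `Z`, for instance the category of perfect complexes on `Z`, or a
component of a semi-orthogonal decomposition of it. It is given by an idempotent `e` in the ring
`K_0(Z × Z)_ℚ`, which is identified with `CH(Z × Z)_ℚ` (all degrees together) by the Chern character
multiplied by the square root of the Todd class (`IsIdempotent`). The noncommutative motive of the dg
category `perf(X_{i_1} × ⋯ × X_{i_s}) ⊗ 𝒜` is `(X_{i_1} × ⋯ × X_{i_s} × Z, 1 × e)` (`relativeOf`), and `TP(𝒜)` is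
the direct summand of the crystalline cohomology of `Z` cut out by `e`. So the conjecture of type D for
it is `HomEqNum`: the elements of the kernel of the Euler pairing are homologically trivial.

**Theorem** (`NCConclusions`).
1. For all finite sets of indices **the noncommutative standard conjecture of type D for
  `perf(X_{i_1} × ⋯ × X_{i_s}) ⊗ 𝒜` is equivalent to the one for `𝒜`**, for all `𝒜` as above. In particular
  (`Z` a point) it is true for `perf(X_{i_1} × ⋯ × X_{i_s})`, and for
  `perf(X_{i_1} × ⋯ × X_{i_s}) ⊗ 𝒜` if `𝒜` comes from a variety `Z` for which the standard conjecture D is
  known.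
2. (Künneth formula) For `V = X_i × V'`, `V' = X_{i_1} × ⋯ × X_{i_s} × Z`, there are finitely many cycles
  `D j` of codimension `deg j` on `X_i`, which do not depend on `𝒜`, such that `K_0(V, 1 × e)_ℚ` is the sum of
  the `D j × K_0(V', 1 × e)_ℚ` modulo homological equivalence, this sum is direct, and the same is true
  for the kernels of the Euler pairings.

Nothing is assumed about nilpotence or finite-dimensionality of motives. (`IsoInvariant`: isomorphisms
have degree one.)

Examples. (a) Let `X_i` be curves `y ^ N_i = ∏ (x - x_{i,k})` with `N_i` factors, of genus
`(N_i - 1) (N_i - 2) / 2`, for different prime numbers `N_i` dividing `c - 1`. Then `weight X_i j` is the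
residue of `j` modulo `N_i`, and `IsSmall N 0` holds for the product `N` of the `N_i` (take `u` with
`u j_i = 1` modulo `N_i`). (b) Let `X` be the variety `w ^ N = l_1 ⋯ l_N` of dimension `n = N - 2`, with
`N` hyperplanes in general position, for a prime number `N` dividing `c - 1` (the resolutions are
Calabi-Yau varieties). The weight for `u j = 1` is `1`, so `IsSmall N λ` holds for all `λ < n`: the
theorem applies to **all dg categories `𝒜` coming from varieties `Z` of dimension smaller than `dim X`**.

The proof: by the theorem of Stickelberger on Gauss sums and the product formula no product of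
eigenvalues of the Frobenius on the parts `T` of several `X_i` and on the cohomology of `Z` is a power
of `q` (starting files, helper876). Cycles on `X_i × V'` of mixed degrees decompose into eigenvectors
of the Frobenius for powers of `q`, modulo homological equivalence they come from cycles on `X_i`, and
the projectors `1 × e` for the iterated products are idempotents (`isIdempotent_relative`), so that the
step for one factor (helper484) can be repeated.
-/

set_option autoImplicit false

open Polynomial CategoryTheory AlgebraicGeometry

namespace Pool.Agent.Results.MP_28af06_ag.HyperplaneCoverings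

open Pool.Agent.H914 Pool.Agent.H914.VarClass Pool.Agent.H914.VarClass.Obj Pool.Agent.W492.BB
  Pool.Agent.W484.CK Pool.Agent.N876.R816 Pool.Agent.Helper17.NC

/-- **The noncommutative standard conjecture D and products with cyclic coverings branched along
hyperplanes.** -/
theorem result (c : ℕ) [Fact c.Prime] (κ : Type) [Field κ] [Fintype κ] [CharP κ c] {ι : Type}
    (C : ι → Covering κ) (f N lam : ℕ) (hC : IsSmallSystem C c f N lam)
    {𝒱 : VarClass κ} (A : TheoryData.{0, 0, 0} 𝒱 ℚ) [IsChow A] (hI : IsoInvariant A) {K : Type}
    [Field K] [IsAlgClosed K] [CharZero K] (H : WeilTheoryData.{0, 0, 0} A K) [IsWeil H]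
    (τ : K →+* ℂ) (F : ∀ X : 𝒱.Obj, X ⟶ X) (X : ι → 𝒱.Obj) (Z : 𝒱.Obj)
    (h : IsCoveringSystem C N lam H τ F X Z (Polynomial.X - 1)) : NCConclusions A H X Z := by
  obtain ⟨S, hS⟩ := Pool.Agent.Helper17.BP.cr_cov c κ C f N lam hC A H τ F X Z _ h
  exact nc_main hI hS (by simp) h.frobenius h.polarized

end Pool.Agent.Results.MP_28af06_ag.HyperplaneCoverings
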