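import Pool.Agent.Hx88.NC.Nodal

/-!
# The noncommutative standard conjecture D for `perf(Y) ⊗ 𝒜`, where `Y` is a product of powers of
varieties with a nodal reduction and `𝒜` is an arbitrary smooth proper dg category

Let `W` be a Weil cohomology theory (with coefficients in a field `W.K` of characteristic zero) on a
class `𝒱` of smooth proper varieties over a field `k`, and `Γ` a group with a character `χ` which
acts on the cohomology of varieties and dg categories like a Galois group. The main example in
characteristic zero: `k` is an algebraic closure of the function field `F` of a curve `C` over the
complex numbers, `H(X)` is the space of the horizontal sections at a base point of the de Rham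
cohomology of a variety `X` over a finite extension of `F`, with the action of the fundamental groups
of the coverings of open subsets of `C`, and the cohomology `M` of a smooth proper dg category `𝒜`
is the space of the horizontal sections of its periodic cyclic homology `HP(𝒜)`, for the
Gauss-Manin connection of Getzler; here `χ = 1`. Other example: the `ℓ`-adic realisation of dg
categories (Blanc, Robalo, Toën, Vezzosi) with the action of the Galois group of a finitely generated
field.

Let `X i` be smooth proper varieties with the following properties:

* the conjecture D holds for the powers of `X i` (for instance in characteristic zero, if `X i` is a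
  complete intersection, or a surface, or an abelian variety);
* the transcendental cohomology of `X i` (the orthogonal complement of the classes of the cycles) is
  in the middle degree, and irreducible under all subgroups of finite index of `Γ`;
* there is an element `g_i` of `Γ` which acts on it by a Picard-Lefschetz formula, and trivially on the
  Tate twists, on the cohomology of the other `X j`, of the variety `Z` and **of the dg category
  `𝒜`**: for instance `X i` has a reduction with one ordinary double point at a place at which the
  other `X j`, `Z` and `𝒜` have good reduction;
* if some `X i` has even dimension then the field `W.K` contains only finitely many `ζ + ζ⁻¹`, `ζ` a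
  root of unity (this is true for `ℚ_ℓ`).

Let `Y` be a product of `Z` and of powers of the `X i` (`PowTower`; for `X i` of even dimension with
fewer factors than the dimension of the transcendental cohomology), where `Z` is any variety in the
class, for instance a point, and let `𝒜` be **any smooth proper dg category**. It need not be related
to a scheme, and nothing is assumed about its cohomology. Of the elements of `K_0(perf(Y) ⊗ 𝒜)` we
use that the homogeneous parts of their Chern characters (for the grading of `H(Y)`) are multiplied by
powers of `χ` by the elements of a subgroup of finite index of `Γ` (`KDefined`).

**Theorem.** There is an `N > 0` and an isomorphism of the group `K_0(perf(Y) ⊗ 𝒜)_ℚ` modulo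
homological equivalence with the sum of `N` copies of the group `K_0(perf(Z) ⊗ 𝒜)_ℚ` modulo homological
equivalence, under which the numerically trivial classes (the kernel of the Euler pairing) correspond
to the families of numerically trivial classes. In particular **the noncommutative standard conjecture
of type D for `perf(Y) ⊗ 𝒜` is equivalent to the one for `perf(Z) ⊗ 𝒜`**, and if `Z` is a point, to
the one for `𝒜`. If it fails, then it fails for both to the same extent: the proportion of the
numerically trivial classes is the same.

The starting results of this problem on products (`AllCMTypesTimes`, `AlmostAllAbelianFactors`) are
about abelian varieties over finite fields and dg categories `𝒜` whose noncommutative motives are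
direct summands of those of schemes. The commutative case `𝒜 = perf(point)` of the theorem is close
to `NodalProducts` (MP_f569db_ag) of this team, and for `𝒜 = perf(U)` with a variety `U` it follows
from it. The new point is that `𝒜` is arbitrary: there are no cycles, no grading and no diagonal
on the side of `𝒜`, only the module structure of the groups `K_0(perf(V) ⊗ 𝒜)` over the Chow rings
of the varieties `V`.

The proof. Let `Y = V × Y'`, where `V` is a power of `X i`. The components of a class `c` in
`K_0(perf(V × Y') ⊗ 𝒜)` give multilinear maps from the transcendental cohomology of `X i` to
`H(Y') ⊗ M`, which are equivariant, up to characters, under a subgroup of finite index. The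
logarithm of `g_i`, or two conjugates of the reflection `g_i`, generate the symplectic or orthogonal
Lie algebra, which kills these multilinear maps, as `g_i` acts trivially on `H(Y') ⊗ M`. By the first
fundamental theorem of invariant theory `c` is in `B ⊗ H(Y') ⊗ M`, where `B` is the span of the
algebraic classes in `H(V)` (`Hx88.NS`, `TH125.Gal`). By the conjecture D for `V` the group of the
algebraic classes on `V` has a rational basis `b_l` with a rational dual basis `u_l`
(`uC_rat`). Then `c` is the sum of the products of `b_l` with the push-forwards of `u_l c` to
`perf(Y') ⊗ 𝒜`; these are in `K_0(perf(Y') ⊗ 𝒜)`, and numerically trivial if `c` is, by the projection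
formula.
-/

set_option autoImplicit false

universe u v w

namespace Pool.Agent.Results.MP_28af06_ag.NodalTimesCategory

open Pool.Agent.H914 Pool.Agent.H914.VarClass Pool.Agent.TH125.Gal Pool.Agent.Hx88.NS
  Pool.Agent.Hx88.NC

/-- **The noncommutative standard conjecture D for the products of powers of varieties with a nodal
reduction with arbitrary smooth proper dg categories.** -/
theorem result {k : Type u} [Field k] {𝒱 : VarClass k} {ops : CycleOps 𝒱}
    (W : WeilCohomology.{u, v} ops) {Γ : Type w} [Group Γ] (χ : Chr W Γ) {ι : Type}
    (X : ι → GVar W Γ) (Z : GVar W Γ) (𝒜 : DgCat W Γ) (h : NodalCat χ X Z 𝒜)
    (hd : ∀ (S : Set ι) (Y : GVar W Γ), PowTower X Z S Y → KDefined χ Y 𝒜)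
    (S : Set ι) (Y : GVar W Γ) (hY : PowTower X Z S Y) :
    (∃ N, 0 < N ∧ IsSumOfCopies Y Z 𝒜 N) ∧ (NCHomNum Y 𝒜 ↔ NCHomNum Z 𝒜) := by
  obtain ⟨N, hN, hc⟩ := nc_nodal h hd hY
  exact ⟨⟨N, hN, hc⟩, hc.ncHomNum hN⟩

end Pool.Agent.Results.MP_28af06_ag.NodalTimesCategory
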