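import Pool.Agent.Hx88.NC.Semi

/-!
# The noncommutative standard conjecture D for `perf(Y) ⊗ 𝒜`, where `Y` is a product of powers of
varieties which degenerate simultaneously and `𝒜` is an arbitrary smooth proper dg category

Let `W` be a Weil cohomology theory (with coefficients in an algebraically closed field of
characteristic zero) on a class `𝒱` of smooth proper varieties over a field `k`, and `Γ` a group with a
character `χ` which acts on the cohomology of varieties and dg categories like a Galois group. The
main example in characteristic zero: `k` is an algebraic closure of the function field `F` of a curve
`C` over the complex numbers, `H(X)` is the space of the horizontal sections at a base point of the de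
Rham cohomology of a variety `X` over a finite extension of `F`, with the action of the fundamental
groups of the coverings of open subsets of `C`, and the cohomology `M` of a smooth proper dg category
`𝒜` is the space of the horizontal sections of its periodic cyclic homology `HP(𝒜)`, for the
Gauss-Manin connection of Getzler; here `χ = 1`. Other example: the `ℓ`-adic realisation of dg
categories (Blanc, Robalo, Toën, Vezzosi), with coefficients extended to the algebraic closure of
`ℚ_ℓ`, with the action of the Galois group of a finitely generated field.

Let `X i` be finitely many smooth proper varieties of odd dimension, for example curves, such that
(`SemistableCat`)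

* the conjecture D holds for the powers of `X i` (this is known in characteristic zero for instance for
  curves, abelian varieties and complete intersections), the transcendental cohomology `T i`
  (the orthogonal complement of the classes of the cycles; for curves `T i = H^1`) is in the middle
  degree, and no subgroup of finite index of `Γ` has a stable subspace of `T i` besides `0` and `T i`;
  for `i ≠ j` the representations `T i` and `T j` are not isomorphic up to scalars;
* let `N` be the set of the elements `g ∈ Γ` with `χ(g) = 1` which act trivially on the cohomology of the
  variety `Z` and **of the dg category `𝒜`**, and with `(g - 1) ^ 2 = 0` on **all** `T j` (`quadCat`);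
  for example the local monodromy at the points where the `X j` have stable reduction and `Z` and
  `𝒜` have good reduction. For every `i` some `g ∈ N` has defects on `T i` without a common prime factor,
  or the defect two; or the conjugates of some `g ∈ N` act irreducibly on `T i` and the defects of all
  elements of `N` have no common prime factor (`SmallVar`). Here the defects of `g` are the rank of
  `g - 1` on `T i` and the multiplicities of the nonzero eigenvalues of `(g - 1) (g' - 1)` on `T i`, for
  `g' ∈ N`.

So **all `X j` may have bad reduction at the same places**, even at only one place, and the rank of the
local monodromy may be large; Picard-Lefschetz formulas are not needed. For example let the `X i` be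
curves over `F` with `End = ℤ` for the Jacobians (over `k`), irreducible monodromy, pairwise not
isogenous, such that at one point of `C`, where `𝒜` has good reduction, the toric rank of every `X i`
is one, two or prime.

Let `Y = X i₁ ^ n₁ × (X i₂ ^ n₂ × (⋯ × Z))` with different indices and arbitrary exponents (`PowTower`;
the condition there for even-dimensional `X i` is void here), where `Z` is any variety in the class,
for instance a point, and let `𝒜` be **any smooth proper dg category**. It need not be related to a
scheme. Of the elements of `K_0(perf(Y) ⊗ 𝒜)` we use that the homogeneous parts of their Chern
characters (for the grading of `H(Y)`) are multiplied by powers of `χ` by the elements of a subgroup of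
finite index of `Γ` (`KDefined`).

**Theorem.** There is an `N > 0` and an isomorphism of the group `K_0(perf(Y) ⊗ 𝒜)_ℚ` modulo
homological equivalence with the sum of `N` copies of the group `K_0(perf(Z) ⊗ 𝒜)_ℚ` modulo homological
equivalence, under which the numerically trivial classes (the kernel of the Euler pairing) correspond
to the families of numerically trivial classes. In particular **the noncommutative standard conjecture
of type D for `perf(Y) ⊗ 𝒜` is equivalent to the one for `perf(Z) ⊗ 𝒜`**, and if `Z` is a point, to
the one for `𝒜`. For the curves above, over function fields of curves over `ℂ`, no other conjecture is
assumed.

`NodalTimesCategory` needs for every `i` an element which acts by a Picard-Lefschetz formula (rank one)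
on `T i` and **trivially on all other `T j`**, so separate places of bad reduction; this is not possible
for instance if all `X i` have bad reduction only at one place or toric rank at least two
everywhere. (Conversely it treats even dimensions and smaller coefficient fields.) The starting results
of this problem on products are about abelian varieties over finite fields and dg categories whose
noncommutative motives are direct summands of those of schemes.

The proof. By the theory of extremal elements (Goursat's lemma, and the ranks of the elements of
square zero in the representations of simple Lie algebras) the Lie algebra of the operators on the sum
of the `T i` which kill all multilinear maps from the `T i` to the twists of `H(Z) ⊗ M` which are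
equivariant under a subgroup of finite index contains the symplectic Lie algebra of every `T i`. This
property passes to the towers (`Hx88.SS`, as for `MP_2a05c8_ag.SemistableTimesSmooth`). By the first
fundamental theorem a class `c` in `K_0(perf(V × Y') ⊗ 𝒜)`, `V` a power of `X i`, is in
`B ⊗ H(Y') ⊗ M`, where `B` is the span of the algebraic classes in `H(V)`. By the conjecture D for `V`
the group of the algebraic classes on `V` has a rational basis `b_l` with a rational dual basis `u_l`.
Then `c` is the sum of the products of `b_l` with the push-forwards of `u_l c` to `perf(Y') ⊗ 𝒜`;
these are in `K_0(perf(Y') ⊗ 𝒜)`, and numerically trivial if `c` is, by the projection formula.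
-/

set_option autoImplicit false

universe u

namespace Pool.Agent.Results.MP_28af06_ag.SemistableTimesCategory

open Pool.Agent.H914 Pool.Agent.H914.VarClass Pool.Agent.TH125.Gal Pool.Agent.Hx88.NS
  Pool.Agent.Hx88.NC

/-- **The noncommutative standard conjecture D for the products of powers of varieties with
simultaneous semistable degenerations with arbitrary smooth proper dg categories.** -/
theorem result {k : Type u} [Field k] {𝒱 : VarClass k} {ops : CycleOps 𝒱}
    (W : WeilCohomology.{u, 0} ops) [IsAlgClosed W.K] {Γ : Type} [Group Γ] (χ : Chr W Γ)
    {ι : Type} [Finite ι] (X : ι → GVar W Γ) (Z : GVar W Γ) (𝒜 : DgCat W Γ)
    (h : SemistableCat χ X Z 𝒜)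
    (hd : ∀ (S : Set ι) (Y : GVar W Γ), PowTower X Z S Y → KDefined χ Y 𝒜)
    (S : Set ι) (Y : GVar W Γ) (hY : PowTower X Z S Y) :
    (∃ N, 0 < N ∧ IsSumOfCopies Y Z 𝒜 N) ∧ (NCHomNum Y 𝒜 ↔ NCHomNum Z 𝒜) := by
  obtain ⟨N, hN, hc⟩ := nc_semi h hd hY
  exact ⟨⟨N, hN, hc⟩, hc.ncHomNum hN⟩

end Pool.Agent.Results.MP_28af06_ag.SemistableTimesCategory
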